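import Pool.Agent.U409.OA.Stm3

/-!
# Project OA, package CC: the count from the partition function at 1
-/

set_option autoImplicit false

open Finset

namespace Pool.Agent.U690.OA

open Pool.Agent.U409.OA

section general

variable {L L' R : Type} [CommSemiring R]

theorem row_map (f : L' → L) (X : L → L → Bool → Bool → Bool → Bool → R) (w : L') :
    ∀ (vs : List L') (r : Bool) (cs : List Bool) (k : Bool → List Bool → R),
      row X (f w) (vs.map f) r cs k = row (fun a b => X (f a) (f b)) w vs r cs k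
  | [], _, _, _ => by simp [row]
  | _ :: _, _, [], _ => by simp [row]
  | v :: vs, r, c :: cs, k => by
      simp only [List.map_cons, row]
      refine sum_congr rfl fun r' _ => sum_congr rfl fun c' _ => ?_
      rw [row_map f X w vs]

theorem Z_map (f : L' → L) (X : L → L → Bool → Bool → Bool → Bool → R) (K : L → Bool → Bool → R) :
    ∀ (l : List L') (ss : List Bool),
      Z X K (l.map f) ss = Z (fun a b => X (f a) (f b)) (fun a => K (f a)) l ss
  | [], _ => by simp [Z]
  | _ :: _, [] => by simp [Z]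
  | w :: ws, s :: ss => by
      simp only [List.map_cons, Z]
      refine sum_congr rfl fun r _ => ?_
      rw [row_map f X w ws]
      congr 2
      funext t ss'
      rw [Z_map f X K ws]

theorem row_mul_right (X : L → L → Bool → Bool → Bool → Bool → R) (w : L) (a : R) :
    ∀ (vs : List L) (r : Bool) (cs : List Bool) (k : Bool → List Bool → R),
      row X w vs r cs (fun t cs' => a * k t cs') = a * row X w vs r cs k
  | [], _, _, _ => by simp [row]
  | _ :: _, _, [], _ => by simp [row]
  | v :: vs, r, c :: cs, k => by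
      simp only [row]
      rw [mul_sum]
      refine sum_congr rfl fun r' _ => ?_
      rw [mul_sum]
      refine sum_congr rfl fun c' _ => ?_
      rw [row_mul_right X w a vs]
      ring

theorem row_scale (X : L → L → Bool → Bool → Bool → Bool → R) (w : L) (a : R) :
    ∀ (vs : List L) (r : Bool) (cs : List Bool) (k : Bool → List Bool → R),
      row (fun p q r c r' c' => a * X p q r c r' c') w vs r cs k = a ^ vs.length * row X w vs r cs k
  | [], _, _, _ => by simp [row]
  | _ :: _, _, [], _ => by simp [row]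
  | v :: vs, r, c :: cs, k => by
      simp only [row, List.length_cons]
      rw [mul_sum]
      refine sum_congr rfl fun r' _ => ?_
      rw [mul_sum]
      refine sum_congr rfl fun c' _ => ?_
      rw [row_scale X w a vs]
      ring

theorem Z_scale (X : L → L → Bool → Bool → Bool → Bool → R) (K : L → Bool → Bool → R) (a : R) :
    ∀ (l : List L) (ss : List Bool),
      Z (fun p q r c r' c' => a * X p q r c r' c') K l ss = a ^ (l.length.choose 2) * Z X K l ss
  | [], _ => by simp [Z]
  | _ :: _, [] => by simp [Z]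
  | w :: ws, s :: ss => by
      simp only [Z, List.length_cons]
      rw [mul_sum]
      refine sum_congr rfl fun r _ => ?_
      have h1 : (fun (t : Bool) (ss' : List Bool) =>
          if t = true then Z (fun p q r c r' c' => a * X p q r c r' c') K ws ss' else 0) =
          fun t ss' => a ^ (ws.length.choose 2) * (if t = true then Z X K ws ss' else 0) := by
        funext t ss'
        rw [Z_scale X K a ws]
        split_ifs <;> simp
      rw [row_scale, h1, row_mul_right, Nat.choose_succ_succ' ws.length 1, Nat.choose_one_right,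
        pow_add]
      ring

end general

theorem cw_one (z : ℂ) (hz : z ^ 2 = z - 1) (r c r' c' : Bool) :
    cw (TrivSqZeroExt.inl z : DualNumber ℂ) (TrivSqZeroExt.inl (1 : ℂ) * TrivSqZeroExt.inl (1 : ℂ))
      r c r' c' = (TrivSqZeroExt.inl (z - 2) : DualNumber ℂ) *
        (if adm r c r' c' then (1 : DualNumber ℂ) else 0) := by
  have h1 : (TrivSqZeroExt.inl (1 : ℂ) * TrivSqZeroExt.inl (1 : ℂ) : DualNumber ℂ) = 1 := by
    rw [TrivSqZeroExt.inl_one, mul_one]
  have h2 : (TrivSqZeroExt.inl z : DualNumber ℂ) ^ 2 - 1 = TrivSqZeroExt.inl (z - 2) := by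
    rw [TrivSqZeroExt.inl_pow, hz, ← TrivSqZeroExt.inl_one ℂ, ← TrivSqZeroExt.inl_sub]
    congr 1; ring
  have h3 : (TrivSqZeroExt.inl z : DualNumber ℂ) - 2 = TrivSqZeroExt.inl (z - 2) := by
    rw [TrivSqZeroExt.inl_sub]; rfl
  rw [h1]
  generalize (TrivSqZeroExt.inl z : DualNumber ℂ) = Zd at *
  generalize (TrivSqZeroExt.inl (z - 2) : DualNumber ℂ) = Wd at *
  cases r <;> cases c <;> cases r' <;> cases c' <;> simp [cw, adm, h2, h3]

theorem ke_one (z : ℂ) (hz : z ^ 2 = z - 1) (s r : Bool) :
    ke (TrivSqZeroExt.inl z : DualNumber ℂ) DualNumber.eps (TrivSqZeroExt.inl (1 : ℂ)) s r =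
      if s = r then TrivSqZeroExt.inl z else DualNumber.eps := by
  have h2 : (TrivSqZeroExt.inl (1 : ℂ) : DualNumber ℂ) + TrivSqZeroExt.inl z ^ 2 =
      TrivSqZeroExt.inl z := by
    rw [TrivSqZeroExt.inl_pow, hz, ← TrivSqZeroExt.inl_add]
    congr 1; ring
  unfold ke
  rw [h2, TrivSqZeroExt.inl_one, mul_one]
  simp

theorem ZD_one (hCB : S_CB) (z : ℂ) (hz : z ^ 2 = z - 1) (n : ℕ) :
    ∃ hf : (Sy (2 * n + 1) (fun _ => false)).Finite,
    ZD z (List.replicate (2 * n + 1) 1) = TrivSqZeroExt.inl (z - 2) ^ (n * (2 * n + 1)) *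
      ∑ M ∈ hf.toFinset, ∏ i, (if M i i = 0 then (TrivSqZeroExt.inl z : DualNumber ℂ)
        else DualNumber.eps) := by
  obtain ⟨hf, h⟩ := hCB (2 * n + 1) (fun _ => false)
  refine ⟨hf, ?_⟩
  have h1 := h (DualNumber ℂ) (TrivSqZeroExt.inl z) DualNumber.eps
  rw [← h1]
  unfold ZD
  have h2 : List.replicate (2 * n + 1) (1 : ℂ) =
      (List.replicate (2 * n + 1) ()).map (fun _ => (1 : ℂ)) := by
    rw [List.map_replicate]
  rw [List.length_replicate, h2, Z_map]
  have h3 : (fun _ _ : Unit => cw (TrivSqZeroExt.inl z : DualNumber ℂ)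
      (TrivSqZeroExt.inl (1 : ℂ) * TrivSqZeroExt.inl (1 : ℂ))) =
      fun _ _ r c r' c' => (TrivSqZeroExt.inl (z - 2) : DualNumber ℂ) *
        (if adm r c r' c' then (1 : DualNumber ℂ) else 0) := by
    funext _ _ r c r' c'
    exact cw_one z hz r c r' c'
  have h4 : (fun _ : Unit => ke (TrivSqZeroExt.inl z : DualNumber ℂ) DualNumber.eps
      (TrivSqZeroExt.inl (1 : ℂ))) = fun _ s r =>
      if s = r then (TrivSqZeroExt.inl z : DualNumber ℂ) else DualNumber.eps := by
    funext _ s r
    exact ke_one z hz s r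
  rw [h3, h4, Z_scale (fun _ _ r c r' c' => if adm r c r' c' then (1 : DualNumber ℂ) else 0),
    List.length_replicate, List.ofFn_const]
  have h5 : (2 * n + 1).choose 2 = n * (2 * n + 1) := by
    rw [Nat.choose_two_right]
    have : (2 * n + 1) * (2 * n + 1 - 1) = 2 * (n * (2 * n + 1)) := by
      rw [Nat.add_sub_cancel]; ring
    rw [this, Nat.mul_div_cancel_left _ (by norm_num)]
  rw [h5]

theorem snd_prod (z : ℂ) (N : ℕ) (P : Fin (N + 1) → Prop) [DecidablePred P] :
    TrivSqZeroExt.snd (∏ i, (if P i then (TrivSqZeroExt.inl z : DualNumber ℂ)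
      else DualNumber.eps)) = if (univ.filter (fun i => ¬ P i)).card = 1 then z ^ N else 0 := by
  rw [prod_ite, prod_const, prod_const]
  have hc : (univ.filter P).card + (univ.filter (fun i => ¬ P i)).card = N + 1 := by
    rw [card_filter_add_card_filter_not, card_univ, Fintype.card_fin]
  rw [TrivSqZeroExt.inl_pow]
  rcases h : (univ.filter (fun i => ¬ P i)).card with _ | _ | k
  · simp
  · have : (univ.filter P).card = N := by omega
    rw [this]
    simp
  · have : (DualNumber.eps : DualNumber ℂ) ^ (k + 2) = 0 := by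
      rw [pow_add, sq, DualNumber.eps_mul_eps, mul_zero]
    rw [show k + 1 + 1 = k + 2 from rfl, this]
    simp

/-- the parity of the trace of a symmetric matrix -/
theorem trace_parity {N : ℕ} (M : Matrix (Fin N) (Fin N) ℤ) (hM : ∀ i j, M i j = M j i) :
    ((∑ i, ∑ j, M i j : ℤ) : ZMod 2) = ((∑ i, M i i : ℤ) : ZMod 2) := by
  push_cast
  have h1 : ∑ i, ∑ j, ((M i j : ℤ) : ZMod 2) =
      ∑ p ∈ (univ : Finset (Fin N)) ×ˢ (univ : Finset (Fin N)), ((M p.1 p.2 : ℤ) : ZMod 2) := by
    rw [sum_product]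
  rw [h1, ← diag_union_offDiag, sum_union (disjoint_diag_offDiag _), sum_diag]
  have h2 : ∑ p ∈ (univ : Finset (Fin N)).offDiag, ((M p.1 p.2 : ℤ) : ZMod 2) = 0 := by
    refine sum_involution (fun p _ => (p.2, p.1)) ?_ ?_ ?_ ?_
    · intro p _
      simp only
      rw [hM p.2 p.1]
      exact CharTwo.add_self_eq_zero _
    · intro p hp _ h
      rw [mem_offDiag] at hp
      have := congrArg Prod.fst h
      exact hp.2.2 this.symm
    · intro p hp
      rw [mem_offDiag] at hp ⊢
      exact ⟨mem_univ _, mem_univ _, Ne.symm hp.2.2⟩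
    · intro p _; rfl
  rw [h2, add_zero]

theorem part_iio {N : ℕ} (e : Fin N → ℤ)
    (h : ∀ k, ∑ j ∈ Iic k, e j = 0 ∨ ∑ j ∈ Iic k, e j = 1) (k : Fin N) :
    ∑ j ∈ Iio k, e j = 0 ∨ ∑ j ∈ Iio k, e j = 1 := by
  by_cases hk : (k : ℕ) = 0
  · left
    have : Iio k = ∅ := by
      ext j
      simp only [mem_Iio, notMem_empty, iff_false, not_lt, Fin.le_def]
      omega
    rw [this, sum_empty]
  · have hk' : (k : ℕ) - 1 < N := by omega
    have : Iio k = Iic (⟨(k : ℕ) - 1, hk'⟩ : Fin N) := by
      ext j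
      simp only [mem_Iio, mem_Iic, Fin.lt_def, Fin.le_def]
      omega
    rw [this]
    exact h _

theorem entry {N : ℕ} (e : Fin N → ℤ)
    (h : ∀ k, ∑ j ∈ Iic k, e j = 0 ∨ ∑ j ∈ Iic k, e j = 1) (k : Fin N) :
    e k = -1 ∨ e k = 0 ∨ e k = 1 := by
  have h1 : ∑ j ∈ Iic k, e j = e k + ∑ j ∈ Iio k, e j := by
    rw [← Iio_insert, sum_insert (by simp)]
  rcases part_iio e h k with h2 | h2 <;> rcases h k with h3 | h3 <;> rw [h1, h2] at h3 <;> omega

theorem OS_iff (n : ℕ) (M : Matrix (Fin (2 * n + 1)) (Fin (2 * n + 1)) ℤ) :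
    (M ∈ Sy (2 * n + 1) (fun _ => false) ∧ (univ.filter (fun i => ¬ M i i = 0)).card = 1) ↔
    ((∀ i j, M i j = -1 ∨ M i j = 0 ∨ M i j = 1) ∧
          (∀ i k, (∑ j ∈ Finset.Iic k, M i j) = 0 ∨ (∑ j ∈ Finset.Iic k, M i j) = 1) ∧
          (∀ i, (∑ j, M i j) = 1) ∧
          (∀ j k, (∑ i ∈ Finset.Iic k, M i j) = 0 ∨ (∑ i ∈ Finset.Iic k, M i j) = 1) ∧
          (∀ j, (∑ i, M i j) = 1) ∧
          (∀ i j, M i j = M j i) ∧
          (∃ d : Fin (2 * n + 1), ∀ i, i ≠ d → M i i = 0)) := by
  have hb : bz false = 0 := rfl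
  constructor
  · rintro ⟨⟨h1, h2, h3⟩, h4⟩
    have h2' : ∀ i k, (∑ j ∈ Finset.Iic k, M i j) = 0 ∨ (∑ j ∈ Finset.Iic k, M i j) = 1 := by
      intro i k
      have := h2 i k
      rwa [hb, zero_add] at this
    have h3' : ∀ i, (∑ j, M i j) = 1 := by
      intro i
      have := h3 i
      rwa [hb, zero_add] at this
    refine ⟨fun i j => entry (M i) (h2' i) j, h2', h3', ?_, ?_, h1, ?_⟩
    · intro j k
      have := h2' j k
      rwa [sum_congr rfl (fun i _ => h1 j i)] at this
    · intro j
      have := h3' j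
      rwa [sum_congr rfl (fun i _ => h1 j i)] at this
    · obtain ⟨d, hd⟩ := card_eq_one.mp h4
      refine ⟨d, fun i hi => ?_⟩
      by_contra hne
      have : i ∈ univ.filter (fun i => ¬ M i i = 0) := mem_filter.mpr ⟨mem_univ _, hne⟩
      rw [hd, mem_singleton] at this
      exact hi this
  · rintro ⟨h1, h2, h3, h4, h5, h6, d, hd⟩
    refine ⟨⟨h6, ?_, ?_⟩, ?_⟩
    · intro i k
      rw [hb, zero_add]
      exact h2 i k
    · intro i
      rw [hb, zero_add]
      exact h3 i
    · rw [card_eq_one]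
      refine ⟨d, ?_⟩
      have hp := trace_parity M h6
      rw [sum_congr rfl (fun i _ => h3 i), sum_const, card_univ, Fintype.card_fin] at hp
      have hdd : M d d ≠ 0 := by
        intro h0
        have h7 : ∑ i, M i i = 0 := by
          refine sum_eq_zero fun i _ => ?_
          by_cases hi : i = d
          · rw [hi, h0]
          · exact hd i hi
        rw [h7] at hp
        have h8 : (((2 * n + 1) • (1 : ℤ) : ℤ) : ZMod 2) = 1 := by
          push_cast [nsmul_eq_mul]
          have : (2 : ZMod 2) = 0 := rfl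
          rw [this]; ring
        rw [h8] at hp
        simp at hp
      ext i
      rw [mem_filter, mem_singleton]
      constructor
      · rintro ⟨-, hi⟩
        by_contra hne
        exact hi (hd i hne)
      · rintro rfl
        exact ⟨mem_univ _, hdd⟩

theorem t_CC (hCB : S_CB) : S_CC := by
  intro z hz n
  obtain ⟨hf, h⟩ := ZD_one hCB z hz n
  unfold A
  have hsnd : ∀ (a : ℂ) (x : DualNumber ℂ),
      TrivSqZeroExt.snd ((TrivSqZeroExt.inl a : DualNumber ℂ) * x) = a * TrivSqZeroExt.snd x := by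
    intro a x
    simp
  rw [h, TrivSqZeroExt.inl_pow, hsnd, TrivSqZeroExt.snd_sum, mul_assoc]
  congr 1
  rw [sum_congr rfl (fun M _ => snd_prod z (2 * n) (fun i => M i i = 0)), ← sum_filter, sum_const,
    nsmul_eq_mul, mul_comm]
  congr 2
  symm
  unfold OS
  apply Nat.subtype_card
  intro M
  rw [mem_filter, Set.Finite.mem_toFinset]
  exact OS_iff n M

end Pool.Agent.U690.OA
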